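import Mathlib
import Pool.Prelude.Def_F_c31e40fa
import Pool.Agent.H713R2.Main4

set_option autoImplicit false

open Filter Topology N62a1eb23

namespace Pool.Agent.Results.MP_c6f924_an.LaurentDichotomy

open Pool.Agent.H713R2

/-- The Laurent coefficients `b` of the exterior conformal map of the Mandelbrot set cannot be
absolutely summable and `o(1/m)` at the same time: if `∑ |b_m| < ∞` then there is `c > 0` such that
just below every large power of two there is an `m` with `m |b_m| ≥ c`. -/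
theorem result :
    (∃ (ψ : ℂ → ℂ) (b : ℕ → ℂ), IsExteriorMap mandelbrotSet ψ ∧ HasLaurent ψ b) ∧
    ∀ (ψ : ℂ → ℂ) (b : ℕ → ℂ), IsExteriorMap mandelbrotSet ψ → HasLaurent ψ b →
      (Summable (fun m : ℕ => ‖b m‖) → ∃ c : ℝ, 0 < c ∧ ∀ ε : ℝ, 0 < ε → ∀ᶠ n : ℕ in atTop,
        ∃ m : ℕ, (1 - ε) * 2 ^ n ≤ (m : ℝ) ∧ m < 2 ^ n ∧ c ≤ (m : ℝ) * ‖b m‖) ∧
      ¬ (Summable (fun m : ℕ => ‖b m‖) ∧
        Tendsto (fun m : ℕ => (m : ℝ) * ‖b m‖) atTop (𝓝 0)) := by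
  obtain ⟨β, hβ⟩ := exists_beta (d := 2) le_rfl
  refine ⟨⟨_, _, exteriorMap_of_beta hβ, laurent_of_beta hβ⟩, ?_⟩
  intro ψ b hψ hb
  have h1 := exterior_coeff hβ hψ hb
  have hmain : Summable (fun m : ℕ => ‖b m‖) → ∃ c : ℝ, 0 < c ∧ ∀ ε : ℝ, 0 < ε →
      ∀ᶠ n : ℕ in atTop,
        ∃ m : ℕ, (1 - ε) * 2 ^ n ≤ (m : ℝ) ∧ m < 2 ^ n ∧ c ≤ (m : ℝ) * ‖b m‖ := by
    intro hs
    have hs' : Summable (fun k => ‖tc β k‖) := by
      rw [← summable_nat_add_iff 1]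
      refine hs.congr fun k => ?_
      rw [h1]
    obtain ⟨c, hc, h2⟩ := main_dichotomy' le_rfl hβ hs'
    refine ⟨c, hc, fun ε hε => ?_⟩
    have h3 := h2 ε hε
    push_cast at h3
    simp only [h1]
    exact h3
  refine ⟨hmain, ?_⟩
  rintro ⟨hs, ht⟩
  obtain ⟨c, hc, h2⟩ := hmain hs
  obtain ⟨M, hM⟩ := eventually_atTop.1 (ht.eventually (gt_mem_nhds hc))
  have h3 := h2 (1 / 2) (by norm_num)
  have h4 : ∀ᶠ n : ℕ in atTop, (2 * M : ℝ) ≤ 2 ^ n :=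
    (tendsto_pow_atTop_atTop_of_one_lt (one_lt_two : (1 : ℝ) < 2)).eventually_ge_atTop _
  obtain ⟨n, ⟨m, hm1, _, hm3⟩, hn⟩ := (h3.and h4).exists
  have h5 : (M : ℝ) ≤ m := by linarith
  have h6 := hM m (by exact_mod_cast h5)
  linarith

end Pool.Agent.Results.MP_c6f924_an.LaurentDichotomy
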